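import Pool.Agent.U485.PT.Apply

set_option autoImplicit false

/-!
# The exceptional set of twists
-/

open Finset MeasureTheory

namespace Pool.Agent.U485.PT

theorem log_le (R δ : ℝ) (hR : 1 ≤ R) (hδ : 0 < δ) : Real.log R ≤ R ^ δ / δ :=
  Real.log_le_rpow_div (by linarith) hδ

theorem SS_bound (d : ℕ) (δ : ℝ) (hδ : 0 < δ) : ∃ C : ℝ, 0 < C ∧ ∀ N : ℕ, 1 ≤ N → ∀ T : ℝ,
    (N : ℝ) ≤ T → SS d N T ≤ C * (2 * N : ℝ) ^ (((d + 1 : ℕ) : ℝ) + 2 * δ) * T := by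
  set k : ℕ := d + 1 with hk
  have hk0 : (0 : ℝ) < k := by rw [hk]; positivity
  set η : ℝ := δ / (2 * k ^ 2) with hη
  have hη0 : 0 < η := by positivity
  obtain ⟨D, hD0, hD⟩ := Pool.Agent.H510R2.divisor_bound η hη0
  refine ⟨2 * k ^ k + 8 * (2 * D) ^ (2 * k) * (1 + k / δ), by positivity, ?_⟩
  intro N hN T hT
  have hN1 : (1 : ℝ) ≤ N := by exact_mod_cast hN
  set R : ℝ := 2 * N with hR
  have hR1 : 1 ≤ R := by linarith
  have hR0 : 0 < R := by linarith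
  have hRk : (0 : ℝ) < R ^ k := by positivity
  have hT0 : 0 ≤ T := by linarith
  refine (SS_le d N hN T hT0).trans ((weighted d N (wt k N T) (wt_nonneg k N T hT0)).trans ?_)
  rw [← hk]
  have hw0 : wt k N T 0 = T + 1 := by unfold wt; rw [if_pos rfl]
  have hNR : (N : ℝ) + 1 ≤ R := by rw [hR]; linarith
  have hRδ : 1 ≤ R ^ (2 * δ) := Real.one_le_rpow hR1 (by positivity)
  have hRδ1 : 1 ≤ R ^ δ := Real.one_le_rpow hR1 hδ.le
  have hRsplit : R ^ ((k : ℝ) + 2 * δ) = R ^ k * R ^ (2 * δ) := by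
    rw [Real.rpow_add hR0, Real.rpow_natCast]
  have hRδδ : R ^ (2 * δ) = R ^ δ * R ^ δ := by
    rw [← Real.rpow_add hR0]; congr 1; ring
  -- first part
  have p1 : (((N + 1) ^ k * k ^ k : ℕ) : ℝ) * wt k N T 0 ≤ 2 * k ^ k * R ^ ((k : ℝ) + 2 * δ) * T := by
    rw [hw0, hRsplit]
    push_cast
    have h1 : ((N : ℝ) + 1) ^ k ≤ R ^ k := pow_le_pow_left₀ (by positivity) hNR _
    have h2 : T + 1 ≤ 2 * T := by linarith
    calc ((N : ℝ) + 1) ^ k * (k : ℝ) ^ k * (T + 1) ≤ R ^ k * (k : ℝ) ^ k * (2 * T) := by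
          gcongr
      _ = 2 * k ^ k * (R ^ k * 1) * T := by ring
      _ ≤ _ := by gcongr
  -- second part
  have p2 : ∑ h ∈ (Icc (-((2 * N : ℤ) ^ k)) ((2 * N : ℤ) ^ k)).erase 0,
        ((N : ℝ) + 1) * (2 * (h.natAbs.divisors.card : ℝ)) ^ (2 * k) * wt k N T h ≤
      8 * (2 * D) ^ (2 * k) * (1 + k / δ) * R ^ ((k : ℝ) + 2 * δ) * T := by
    have q1 : ∀ h ∈ (Icc (-((2 * N : ℤ) ^ k)) ((2 * N : ℤ) ^ k)).erase 0,
        ((N : ℝ) + 1) * (2 * (h.natAbs.divisors.card : ℝ)) ^ (2 * k) * wt k N T h ≤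
        R * ((2 * D) ^ (2 * k) * R ^ δ) * (2 * R ^ k) * |(h : ℝ)|⁻¹ := by
      intro h hh
      rw [mem_erase, mem_Icc] at hh
      obtain ⟨h0, h1, h2⟩ := hh
      have e1 : wt k N T h = 2 * R ^ k * |(h : ℝ)|⁻¹ := by
        unfold wt; rw [if_neg h0]
      rw [e1, ← mul_assoc]
      refine mul_le_mul_of_nonneg_right ?_ (by positivity)
      refine mul_le_mul_of_nonneg_right ?_ (by positivity)
      refine mul_le_mul hNR ?_ (by positivity) hR0.le
      have hn1 : 1 ≤ h.natAbs := Int.natAbs_pos.2 h0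
      have hn2 : ((h.natAbs : ℕ) : ℝ) ≤ R ^ k := by
        have h3 : |h| ≤ (2 * N : ℤ) ^ k := abs_le.2 ⟨h1, h2⟩
        have h4 : ((h.natAbs : ℕ) : ℝ) = ((|h| : ℤ) : ℝ) := by
          rw [Nat.cast_natAbs]
        rw [h4, hR]
        exact_mod_cast h3
      have h5 : (h.natAbs.divisors.card : ℝ) ≤ D * (R ^ k) ^ η := by
        refine (hD _ hn1).trans ?_
        refine mul_le_mul_of_nonneg_left ?_ hD0.le
        exact Real.rpow_le_rpow (by positivity) hn2 hη0.le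
      calc (2 * (h.natAbs.divisors.card : ℝ)) ^ (2 * k) ≤ (2 * (D * (R ^ k) ^ η)) ^ (2 * k) := by
            refine pow_le_pow_left₀ (by positivity) ?_ _
            linarith
        _ = (2 * D) ^ (2 * k) * ((R ^ k) ^ η) ^ (2 * k) := by
            rw [← mul_pow, mul_assoc]
        _ = (2 * D) ^ (2 * k) * R ^ δ := by
            congr 1
            rw [← Real.rpow_natCast R k, ← Real.rpow_mul hR0.le, ← Real.rpow_natCast,
              ← Real.rpow_mul hR0.le]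
            congr 1
            rw [hη]
            push_cast
            field_simp
    refine (sum_le_sum q1).trans ?_
    rw [← mul_sum]
    have q2 : ∑ h ∈ (Icc (-((2 * N : ℤ) ^ k)) ((2 * N : ℤ) ^ k)).erase 0, |(h : ℝ)|⁻¹ ≤
        2 * (1 + k * (R ^ δ / δ)) := by
      have h1 : ∑ h ∈ (Icc (-((2 * N : ℤ) ^ k)) ((2 * N : ℤ) ^ k)).erase 0, |(h : ℝ)|⁻¹ ≤
          Pool.Agent.U623.TW.hs (((2 * N) ^ k : ℕ) : ℤ) := by
        unfold Pool.Agent.U623.TW.hs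
        push_cast
        exact sum_le_sum_of_subset_of_nonneg (erase_subset _ _) fun _ _ _ => by positivity
      refine (h1.trans (Pool.Agent.U623.TW.hs_le_log _)).trans ?_
      push_cast
      rw [← hR, Real.log_pow]
      have := log_le R δ hR1 hδ
      have : (k : ℝ) * Real.log R ≤ k * (R ^ δ / δ) := mul_le_mul_of_nonneg_left this hk0.le
      linarith
    have hRT : R ≤ 2 * T := by rw [hR]; linarith
    have hkδ : 1 + k * (R ^ δ / δ) ≤ (1 + k / δ) * R ^ δ := by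
      have : (k : ℝ) * (R ^ δ / δ) = k / δ * R ^ δ := by ring
      rw [this]
      nlinarith
    calc R * ((2 * D) ^ (2 * k) * R ^ δ) * (2 * R ^ k) *
          ∑ h ∈ (Icc (-((2 * N : ℤ) ^ k)) ((2 * N : ℤ) ^ k)).erase 0, |(h : ℝ)|⁻¹
        ≤ (2 * T) * ((2 * D) ^ (2 * k) * R ^ δ) * (2 * R ^ k) * (2 * ((1 + k / δ) * R ^ δ)) := by
          refine mul_le_mul ?_ (q2.trans (by linarith)) (sum_nonneg fun _ _ => by positivity)
            (by positivity)
          gcongr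
      _ = _ := by rw [hRsplit, hRδδ]; ring
  calc _ ≤ 2 * k ^ k * R ^ ((k : ℝ) + 2 * δ) * T +
        8 * (2 * D) ^ (2 * k) * (1 + k / δ) * R ^ ((k : ℝ) + 2 * δ) * T := add_le_add p1 p2
    _ = _ := by ring

theorem moment (d : ℕ) (ε : ℝ) (hε : 0 < ε) : ∃ C : ℝ, 0 < C ∧ ∀ N : ℕ, 1 ≤ N → ∀ b : ℕ → ℂ,
    (∀ n, ‖b n‖ ≤ 1) → ∀ T : ℝ, (N : ℝ) ≤ T →
    ∫ β, HH d (d + 1) N b T β ∂(nu d) ≤ C * (N : ℝ) ^ (((d + 1 : ℕ) : ℝ) + ε) * T := by
  set k : ℕ := d + 1 with hk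
  have hk0 : (0 : ℝ) < k := by rw [hk]; positivity
  set δ : ℝ := ε / 4 with hδ
  have hδ0 : 0 < δ := by positivity
  obtain ⟨C, hC0, hC⟩ := SS_bound d δ hδ0
  refine ⟨(2 + k ^ 2 / δ ^ 2) * C * 2 ^ ((k : ℝ) + ε), by positivity, ?_⟩
  intro N hN b hb T hT
  have hN1 : (1 : ℝ) ≤ N := by exact_mod_cast hN
  have hN0 : (0 : ℝ) < N := by linarith
  have h1 := int_HH d N hN b hb T (by linarith)
  refine h1.trans ?_
  rw [← hk]
  have h2 := hC N hN T hT
  rw [← hk] at h2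
  set R : ℝ := 2 * N with hR
  have hR1 : 1 ≤ R := by linarith
  have hR0 : 0 < R := by linarith
  have hlog0 : 0 ≤ Real.log R := Real.log_nonneg hR1
  have hlog := log_le R δ hR1 hδ0
  have h3 : 2 + ((k : ℝ) * Real.log R) ^ 2 ≤ (2 + k ^ 2 / δ ^ 2) * R ^ (2 * δ) := by
    have e1 : R ^ (2 * δ) = (R ^ δ) ^ 2 := by
      rw [← Real.rpow_natCast, ← Real.rpow_mul hR0.le]; congr 1; push_cast; ring
    have e2 : 1 ≤ R ^ (2 * δ) := Real.one_le_rpow hR1 (by positivity)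
    have e3 : ((k : ℝ) * Real.log R) ^ 2 ≤ (k * (R ^ δ / δ)) ^ 2 :=
      pow_le_pow_left₀ (by positivity) (mul_le_mul_of_nonneg_left hlog hk0.le) 2
    have e4 : (k * (R ^ δ / δ)) ^ 2 = k ^ 2 / δ ^ 2 * R ^ (2 * δ) := by
      rw [e1]; field_simp
    rw [e4] at e3
    linarith
  have h4 : 0 ≤ SS d N T := SS_nonneg d N T
  have e5 : R ^ (2 * δ) * R ^ ((k : ℝ) + 2 * δ) = 2 ^ ((k : ℝ) + ε) * (N : ℝ) ^ ((k : ℝ) + ε) := by
    rw [← Real.rpow_add hR0, ← Real.mul_rpow (by norm_num) hN0.le, ← hR]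
    congr 1
    rw [hδ]; ring
  calc (2 + ((k : ℝ) * Real.log R) ^ 2) * SS d N T
      ≤ ((2 + k ^ 2 / δ ^ 2) * R ^ (2 * δ)) * (C * R ^ ((k : ℝ) + 2 * δ) * T) :=
        mul_le_mul h3 h2 h4 (by positivity)
    _ = (2 + k ^ 2 / δ ^ 2) * C * (R ^ (2 * δ) * R ^ ((k : ℝ) + 2 * δ)) * T := by ring
    _ = _ := by rw [e5]; ring

/-- The moments of order `2 (d + 1)` at well-spaced points, for all `N ≤ T ≤ N ^ A`. -/
def MomentsGood (d N : ℕ) (b : ℕ → ℂ) (A ε : ℝ) (β : Fin d → ℝ) : Prop :=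
  ∀ T : ℝ, (N : ℝ) ≤ T → T ≤ (N : ℝ) ^ A → ∀ W : Finset ℝ, (∀ t ∈ W, 0 ≤ t ∧ t ≤ T) →
    (∀ t ∈ W, ∀ s ∈ W, t ≠ s → 1 ≤ |t - s|) →
      ∑ t ∈ W, ‖DT d N b β t‖ ^ (2 * (d + 1)) ≤ 2 * (N : ℝ) ^ (((d + 1 : ℕ) : ℝ) + ε) * T

theorem main (d : ℕ) (A ε : ℝ) (hA : 1 ≤ A) (hε : 0 < ε) : ∃ C : ℝ, 0 < C ∧ ∀ N : ℕ, 1 ≤ N →
    ∀ b : ℕ → ℂ, (∀ n, ‖b n‖ ≤ 1) →
      volume {β | β ∈ Set.Icc (0 : Fin d → ℝ) 1 ∧ ¬ MomentsGood d N b A ε β} ≤
        ENNReal.ofReal (C * (N : ℝ) ^ (-(ε / 2))) := by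
  obtain ⟨C, hC0, hC⟩ := moment d (ε / 4) (by positivity)
  set k : ℕ := d + 1 with hk
  refine ⟨C * (2 + A / Real.log 2 * (1 / (ε / 4))), by
    have := Real.log_pos (by norm_num : (1 : ℝ) < 2)
    positivity, ?_⟩
  intro N hN b hb
  have hN1 : (1 : ℝ) ≤ N := by exact_mod_cast hN
  have hN0 : (0 : ℝ) < N := by linarith
  have hl2 : 0 < Real.log 2 := Real.log_pos (by norm_num)
  have hlN : 0 ≤ Real.log N := Real.log_nonneg hN1
  set I : ℕ := ⌈A * Real.log N / Real.log 2⌉₊ with hI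
  set τ : ℕ → ℝ := fun i => 2 ^ i * N with hτ
  have hτN : ∀ i, (N : ℝ) ≤ τ i := fun i => by
    have : (1 : ℝ) ≤ 2 ^ i := one_le_pow₀ (by norm_num)
    simp only [hτ]; nlinarith
  have hτ0 : ∀ i, 0 < τ i := fun i => hN0.trans_le (hτN i)
  set S : (Fin d → ℝ) → ℝ := fun β => ∑ i ∈ range (I + 1), HH d k N b (τ i) β / τ i with hS
  have hHint : ∀ i, Integrable (HH d k N b (τ i)) (nu d) := fun i =>
    (HH_cont d k N b (τ i)).integrableOn_Icc
  have hSint : Integrable S (nu d) := by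
    refine integrable_finsetSum _ fun i _ => ?_
    exact (hHint i).div_const _
  have hS0 : ∀ β, 0 ≤ S β := fun β => sum_nonneg fun i _ =>
    div_nonneg (HH_nonneg d k N b _ (hτ0 i).le β) (hτ0 i).le
  have hSi : ∫ β, S β ∂(nu d) ≤ (I + 1) * (C * (N : ℝ) ^ ((k : ℝ) + ε / 4)) := by
    simp only [hS]
    rw [integral_finsetSum _ (fun i _ => (hHint i).div_const _)]
    have : ∀ i ∈ range (I + 1), ∫ β, HH d k N b (τ i) β / τ i ∂(nu d) ≤
        C * (N : ℝ) ^ ((k : ℝ) + ε / 4) := by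
      intro i _
      rw [integral_div, div_le_iff₀ (hτ0 i)]
      exact hC N hN b hb (τ i) (hτN i)
    refine (sum_le_sum this).trans (le_of_eq ?_)
    rw [sum_const, card_range, nsmul_eq_mul]
    push_cast; ring
  set l : ℝ := (N : ℝ) ^ ((k : ℝ) + ε) with hl
  have hl0 : 0 < l := Real.rpow_pos_of_pos hN0 _
  have hM := mul_meas_ge_le_integral_of_nonneg (Filter.Eventually.of_forall hS0) hSint l
  have hI1 : (I : ℝ) + 1 ≤ (2 + A / Real.log 2 * (1 / (ε / 4))) * (N : ℝ) ^ (ε / 4) := by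
    have h1 : (I : ℝ) < A * Real.log N / Real.log 2 + 1 := Nat.ceil_lt_add_one (by positivity)
    have h2 := log_le N (ε / 4) hN1 (by positivity)
    have h3 : 1 ≤ (N : ℝ) ^ (ε / 4) := Real.one_le_rpow hN1 (by positivity)
    have h4 : A * Real.log N / Real.log 2 ≤ A / Real.log 2 * (1 / (ε / 4)) * (N : ℝ) ^ (ε / 4) := by
      have : A / Real.log 2 * (1 / (ε / 4)) * (N : ℝ) ^ (ε / 4) =
        A / Real.log 2 * ((N : ℝ) ^ (ε / 4) / (ε / 4)) := by ring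
      rw [this]
      have h5 : A * Real.log N / Real.log 2 = A / Real.log 2 * Real.log N := by ring
      rw [h5]
      exact mul_le_mul_of_nonneg_left h2 (by positivity)
    linarith
  have hmeas : (nu d).real {β | l ≤ S β} ≤
      C * (2 + A / Real.log 2 * (1 / (ε / 4))) * (N : ℝ) ^ (-(ε / 2)) := by
    have h1 : l * (nu d).real {β | l ≤ S β} ≤
        l * (C * (2 + A / Real.log 2 * (1 / (ε / 4))) * (N : ℝ) ^ (-(ε / 2))) := by
      refine hM.trans (hSi.trans ?_)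
      have e1 : (N : ℝ) ^ (ε / 4) * (N : ℝ) ^ ((k : ℝ) + ε / 4) = l * (N : ℝ) ^ (-(ε / 2)) := by
        rw [hl, ← Real.rpow_add hN0, ← Real.rpow_add hN0]; congr 1; ring
      calc ((I : ℝ) + 1) * (C * (N : ℝ) ^ ((k : ℝ) + ε / 4)) ≤
            ((2 + A / Real.log 2 * (1 / (ε / 4))) * (N : ℝ) ^ (ε / 4)) *
              (C * (N : ℝ) ^ ((k : ℝ) + ε / 4)) := by
            refine mul_le_mul_of_nonneg_right hI1 (by positivity)
        _ = C * (2 + A / Real.log 2 * (1 / (ε / 4))) *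
            ((N : ℝ) ^ (ε / 4) * (N : ℝ) ^ ((k : ℝ) + ε / 4)) := by ring
        _ = _ := by rw [e1]; ring
    exact le_of_mul_le_mul_left h1 hl0
  have hsub : {β | β ∈ Set.Icc (0 : Fin d → ℝ) 1 ∧ ¬ MomentsGood d N b A ε β} ⊆
      {β | l ≤ S β} ∩ Set.Icc (0 : Fin d → ℝ) 1 := by
    rintro β ⟨hβ, hbad⟩
    refine ⟨?_, hβ⟩
    by_contra hlt
    rw [Set.mem_ofPred_eq, not_le] at hlt
    refine hbad ?_
    intro T hT1 hT2 W hW hsep
    have hT0 : 0 < T := by linarith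
    -- the scale
    have hex : ∃ i, T ≤ τ i := by
      refine ⟨I, ?_⟩
      have h1 : (N : ℝ) ^ A ≤ 2 ^ I := by
        have h2 : A * Real.log N / Real.log 2 ≤ I := Nat.le_ceil _
        rw [div_le_iff₀ hl2] at h2
        rw [← Real.log_le_log_iff (Real.rpow_pos_of_pos hN0 _) (by positivity),
          Real.log_rpow hN0, Real.log_pow]
        exact h2
      have h3 : (0 : ℝ) ≤ 2 ^ I := by positivity
      simp only [hτ]
      nlinarith
    classical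
    set i := Nat.find hex with hi
    have hi1 : T ≤ τ i := Nat.find_spec hex
    have hi2 : i ≤ I := by
      refine Nat.find_min' hex ?_
      have h1 : (N : ℝ) ^ A ≤ 2 ^ I := by
        have h2 : A * Real.log N / Real.log 2 ≤ I := Nat.le_ceil _
        rw [div_le_iff₀ hl2] at h2
        rw [← Real.log_le_log_iff (Real.rpow_pos_of_pos hN0 _) (by positivity),
          Real.log_rpow hN0, Real.log_pow]
        exact h2
      have h3 : (0 : ℝ) ≤ 2 ^ I := by positivity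
      simp only [hτ]
      nlinarith
    have hi3 : τ i ≤ 2 * T := by
      rcases Nat.eq_zero_or_pos i with h0 | h0
      · rw [h0]; simp only [hτ, pow_zero, one_mul]; linarith
      · have h4 : ¬ T ≤ τ (i - 1) := Nat.find_min hex (by omega)
        rw [not_le] at h4
        have h5 : τ i = 2 * τ (i - 1) := by
          simp only [hτ]
          rw [← mul_assoc, ← pow_succ']
          congr 2
          omega
        rw [h5]; linarith
    have h6 := points d k N b β (τ i) (hτ0 i).le W (fun t ht => ⟨(hW t ht).1, (hW t ht).2.trans hi1⟩) hsep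
    have h7 : HH d k N b (τ i) β / τ i ≤ S β := by
      simp only [hS]
      refine single_le_sum (f := fun i => HH d k N b (τ i) β / τ i) (fun j _ =>
        div_nonneg (HH_nonneg d k N b _ (hτ0 j).le β) (hτ0 j).le) (mem_range.2 (by omega))
    rw [div_le_iff₀ (hτ0 i)] at h7
    refine h6.trans (h7.trans ?_)
    calc S β * τ i ≤ l * (2 * T) := mul_le_mul hlt.le hi3 (hτ0 i).le hl0.le
      _ = _ := by ring
  refine (measure_mono hsub).trans ?_
  rw [← Measure.restrict_apply' measurableSet_Icc]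
  have hfin : (nu d) {β | l ≤ S β} ≠ ⊤ := measure_ne_top _ _
  have : (nu d) {β | l ≤ S β} = ENNReal.ofReal ((nu d).real {β | l ≤ S β}) := by
    rw [ofReal_measureReal hfin]
  change (nu d) {β | l ≤ S β} ≤ _
  rw [this]
  exact ENNReal.ofReal_le_ofReal hmeas

end Pool.Agent.U485.PT
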