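import Pool.Agent.U485.PT.Mean

set_option autoImplicit false

/-!
# The moments of a Dirichlet polynomial twisted by polynomial phases
-/

open Finset MeasureTheory

namespace Pool.Agent.U485.PT

/-- twisted Dirichlet polynomial -/
noncomputable def DT (d N : ℕ) (b : ℕ → ℂ) (β : Fin d → ℝ) (t : ℝ) : ℂ :=
  ∑ n ∈ Icc N (2 * N), b n * Complex.exp (Complex.I *
    ((pha d β (fun j => (n : ℤ) ^ (j.val + 1)) + t * Real.log n : ℝ) : ℂ))

/-- power sums -/
def ms (d k : ℕ) (x : Fin k → ℕ) : Fin d → ℤ := fun j => ∑ i, (x i : ℤ) ^ (j.val + 1)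

/-- sum of logarithms -/
noncomputable def Ls (k : ℕ) (x : Fin k → ℕ) : ℝ := ∑ i, Real.log (x i)

/-- the power -/
noncomputable def FF (d k N : ℕ) (b : ℕ → ℂ) (β : Fin d → ℝ) (t : ℝ) : ℂ :=
  ∑ x ∈ Tup k N, (∏ i, b (x i)) * Complex.exp (Complex.I *
    ((pha d β (ms d k x) + t * Ls k x : ℝ) : ℂ))

/-- its derivative -/
noncomputable def FD (d k N : ℕ) (b : ℕ → ℂ) (β : Fin d → ℝ) (t : ℝ) : ℂ :=
  ∑ x ∈ Tup k N, ((∏ i, b (x i)) * (Complex.I * (Ls k x : ℂ))) * Complex.exp (Complex.I *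
    ((pha d β (ms d k x) + t * Ls k x : ℝ) : ℂ))

theorem DT_pow (d k N : ℕ) (b : ℕ → ℂ) (β : Fin d → ℝ) (t : ℝ) :
    DT d N b β t ^ k = FF d k N b β t := by
  have h1 : DT d N b β t ^ k = ∏ _i : Fin k, DT d N b β t := by simp
  rw [h1]
  unfold DT FF Tup
  rw [prod_univ_sum]
  refine sum_congr rfl fun x _ => ?_
  rw [prod_mul_distrib, ← Complex.exp_sum]
  congr 2
  rw [← mul_sum]
  congr 1
  rw [← Complex.ofReal_sum]
  congr 1
  rw [sum_add_distrib, ← mul_sum]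
  congr 1
  unfold pha ms
  rw [← mul_sum]
  congr 1
  rw [sum_comm]
  refine sum_congr rfl fun j _ => ?_
  push_cast
  rw [mul_sum]

theorem hder (d k N : ℕ) (b : ℕ → ℂ) (β : Fin d → ℝ) (t : ℝ) :
    HasDerivAt (FF d k N b β) (FD d k N b β t) t := by
  unfold FF FD
  apply HasDerivAt.fun_sum
  intro x _
  have h1 : HasDerivAt (fun t : ℝ => Complex.I *
      ((pha d β (ms d k x) + t * Ls k x : ℝ) : ℂ)) (Complex.I * (Ls k x : ℂ)) t := by
    have h2 : HasDerivAt (fun t : ℝ => (pha d β (ms d k x) + t * Ls k x : ℝ)) (Ls k x) t := by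
      have := ((hasDerivAt_id t).mul_const (Ls k x)).const_add (pha d β (ms d k x))
      simpa using this
    exact (h2.ofReal_comp).const_mul Complex.I
  have h3 := (h1.cexp).const_mul (∏ i, b (x i))
  refine h3.congr_deriv ?_
  ring

theorem FD_cont (d k N : ℕ) (b : ℕ → ℂ) (β : Fin d → ℝ) : Continuous (FD d k N b β) := by
  unfold FD
  fun_prop

/-- the majorant of the sums over well-spaced points -/
noncomputable def HH (d k N : ℕ) (b : ℕ → ℂ) (T : ℝ) (β : Fin d → ℝ) : ℝ :=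
  ∫ s in (-(1 / 2))..(T + 1 / 2), (2 * ‖FF d k N b β s‖ ^ 2 + ‖FD d k N b β s‖ ^ 2)

theorem HH_nonneg (d k N : ℕ) (b : ℕ → ℂ) (T : ℝ) (hT : 0 ≤ T) (β : Fin d → ℝ) :
    0 ≤ HH d k N b T β := by
  unfold HH
  exact intervalIntegral.integral_nonneg (by linarith) fun _ _ => by positivity

theorem HH_cont (d k N : ℕ) (b : ℕ → ℂ) (T : ℝ) : Continuous (HH d k N b T) := by
  unfold HH
  apply intervalIntegral.continuous_parametric_intervalIntegral_of_continuous'
  have h1 : ∀ m : Fin d → ℤ, Continuous fun p : (Fin d → ℝ) × ℝ => pha d p.1 m := fun m =>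
    (pha_cont d m).comp continuous_fst
  unfold FF FD Function.uncurry
  fun_prop

theorem points (d k N : ℕ) (b : ℕ → ℂ) (β : Fin d → ℝ) (T : ℝ) (hT : 0 ≤ T) (W : Finset ℝ)
    (hW : ∀ t ∈ W, 0 ≤ t ∧ t ≤ T) (hsep : ∀ t ∈ W, ∀ s ∈ W, t ≠ s → 1 ≤ |t - s|) :
    ∑ t ∈ W, ‖DT d N b β t‖ ^ (2 * k) ≤ HH d k N b T β := by
  have h1 := gall (FF d k N b β) (FD d k N b β) (hder d k N b β) (FD_cont d k N b β) T hT W hW hsep
  refine le_trans (le_of_eq ?_) h1
  refine sum_congr rfl fun t _ => ?_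
  rw [← DT_pow, norm_pow, ← pow_mul, mul_comm]

theorem same_iff (d k : ℕ) (x y : Fin k → ℕ) : ms d k x = ms d k y ↔ SameP d k x y := by
  unfold ms SameP
  constructor
  · intro h j
    have := congrFun h j
    exact_mod_cast this
  · intro h
    funext j
    exact_mod_cast h j

/-- the weight -/
noncomputable def wt (k N : ℕ) (T : ℝ) (h : ℤ) : ℝ :=
  if h = 0 then T + 1 else 2 * (2 * N : ℝ) ^ k * |(h : ℝ)|⁻¹

theorem wt_nonneg (k N : ℕ) (T : ℝ) (hT : 0 ≤ T) (h : ℤ) : 0 ≤ wt k N T h := by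
  unfold wt
  split_ifs <;> positivity

theorem J_le (k N : ℕ) (hN : 1 ≤ N) (T : ℝ) (hT : 0 ≤ T) (x y : Fin k → ℕ) (hx : x ∈ Tup k N)
    (hy : y ∈ Tup k N) : ‖J (-(1 / 2)) (T + 1 / 2) (Ls k x - Ls k y)‖ ≤ wt k N T (dif k x y) := by
  unfold Tup at hx hy
  rw [Fintype.mem_piFinset] at hx hy
  have hpos : ∀ z : Fin k → ℕ, (∀ i, z i ∈ Icc N (2 * N)) →
      (0 : ℝ) < ∏ i, (z i : ℝ) ∧ ∏ i, (z i : ℝ) ≤ (2 * N : ℝ) ^ k ∧
        Ls k z = Real.log (∏ i, (z i : ℝ)) := by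
    intro z hz
    have h0 : ∀ i, (0 : ℝ) < z i := fun i => by
      have := (mem_Icc.1 (hz i)).1
      exact_mod_cast (by omega : 0 < z i)
    refine ⟨prod_pos fun i _ => h0 i, ?_, ?_⟩
    · have : ∏ i, (z i : ℝ) ≤ ∏ _i : Fin k, (2 * N : ℝ) := by
        refine prod_le_prod (fun i _ => (h0 i).le) fun i _ => ?_
        have := (mem_Icc.1 (hz i)).2
        exact_mod_cast this
      refine this.trans ?_
      simp
    · unfold Ls
      rw [Real.log_prod (fun i _ => (h0 i).ne')]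
  obtain ⟨x1, x2, x3⟩ := hpos x hx
  obtain ⟨y1, y2, y3⟩ := hpos y hy
  have hdif : ((dif k x y : ℤ) : ℝ) = ∏ i, (x i : ℝ) - ∏ i, (y i : ℝ) := by
    unfold dif; push_cast; ring
  have hM : (0 : ℝ) < (2 * N : ℝ) ^ k := by
    have : (0 : ℝ) < N := by exact_mod_cast hN
    positivity
  unfold wt
  split_ifs with h
  · refine (J_triv _ _ _ (by linarith)).trans (le_of_eq (by ring))
  · have hd : ((dif k x y : ℤ) : ℝ) ≠ 0 := by exact_mod_cast h
    have key : |((dif k x y : ℤ) : ℝ)| / (2 * N : ℝ) ^ k ≤ |Ls k x - Ls k y| := by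
      rw [x3, y3]
      rcases le_total (∏ i, (y i : ℝ)) (∏ i, (x i : ℝ)) with h1 | h1
      · have := Pool.Agent.U623.TW.log_diff _ _ _ y1 h1 x2
        rw [hdif, abs_of_nonneg (by linarith)]
        exact this.trans (le_abs_self _)
      · have := Pool.Agent.U623.TW.log_diff _ _ _ x1 h1 y2
        rw [hdif, abs_of_nonpos (by linarith), abs_sub_comm, neg_sub]
        exact this.trans (le_abs_self _)
    have hLpos : 0 < |Ls k x - Ls k y| := by
      refine lt_of_lt_of_le ?_ key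
      have := abs_pos.2 hd
      positivity
    refine (J_bound _ _ _ (abs_pos.1 hLpos)).trans ?_
    rw [div_le_iff₀ hLpos]
    have hdp := abs_pos.2 hd
    calc (2 : ℝ) = 2 * (2 * N : ℝ) ^ k * |((dif k x y : ℤ) : ℝ)|⁻¹ *
          (|((dif k x y : ℤ) : ℝ)| / (2 * N : ℝ) ^ k) := by field_simp
      _ ≤ _ := by
        refine mul_le_mul_of_nonneg_left key (by positivity)

/-- the sum of the integrals over the pairs with equal power sums -/
noncomputable def SS (d N : ℕ) (T : ℝ) : ℝ :=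
  ∑ p ∈ Tup (d + 1) N, ∑ q ∈ Tup (d + 1) N, if ms d (d + 1) p = ms d (d + 1) q then
    ‖J (-(1 / 2)) (T + 1 / 2) (Ls (d + 1) p - Ls (d + 1) q)‖ else 0

theorem SS_nonneg (d N : ℕ) (T : ℝ) : 0 ≤ SS d N T := by
  unfold SS
  refine sum_nonneg fun p _ => sum_nonneg fun q _ => ?_
  split_ifs <;> positivity

theorem SS_le (d N : ℕ) (hN : 1 ≤ N) (T : ℝ) (hT : 0 ≤ T) :
    SS d N T ≤ ∑ p ∈ Prs d N, wt (d + 1) N T (dif (d + 1) p.1 p.2) := by
  classical
  unfold SS Prs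
  rw [sum_filter, sum_product]
  refine sum_le_sum fun x hx => sum_le_sum fun y hy => ?_
  by_cases h : ms d (d + 1) x = ms d (d + 1) y
  · rw [if_pos h, if_pos ((same_iff d (d + 1) x y).1 h)]
    exact J_le (d + 1) N hN T hT x y hx hy
  · rw [if_neg h, if_neg (fun h' => h ((same_iff d (d + 1) x y).2 h'))]

theorem Ls_le (k N : ℕ) (hN : 1 ≤ N) (x : Fin k → ℕ) (hx : x ∈ Tup k N) :
    0 ≤ Ls k x ∧ Ls k x ≤ k * Real.log (2 * N) := by
  unfold Tup at hx
  rw [Fintype.mem_piFinset] at hx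
  unfold Ls
  constructor
  · exact sum_nonneg fun i _ => Real.log_natCast_nonneg _
  · have : ∑ i, Real.log (x i) ≤ ∑ _i : Fin k, Real.log (2 * N) := by
      refine sum_le_sum fun i _ => ?_
      have h := mem_Icc.1 (hx i)
      refine Real.log_le_log ?_ ?_
      · exact_mod_cast (by omega : 0 < x i)
      · exact_mod_cast h.2
    refine this.trans (le_of_eq ?_)
    simp

theorem int_HH (d N : ℕ) (hN : 1 ≤ N) (b : ℕ → ℂ) (hb : ∀ n, ‖b n‖ ≤ 1) (T : ℝ) (hT : 0 ≤ T) :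
    ∫ β, HH d (d + 1) N b T β ∂(nu d) ≤
      (2 + (((d + 1 : ℕ) : ℝ) * Real.log (2 * N)) ^ 2) * SS d N T := by
  have hab : (-(1 / 2) : ℝ) ≤ T + 1 / 2 := by linarith
  have hB : ∀ x : Fin (d + 1) → ℕ, ‖∏ i, b (x i)‖ ≤ 1 := by
    intro x
    rw [norm_prod]
    exact prod_le_one (fun _ _ => norm_nonneg _) fun i _ => hb _
  have hlog : 0 ≤ Real.log (2 * N) := by
    apply Real.log_nonneg
    have : (1 : ℝ) ≤ N := by exact_mod_cast hN
    linarith
  have m1 := mean_box (Tup (d + 1) N) d (fun x => ∏ i, b (x i)) 1 zero_le_one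
    (fun x _ => hB x) (ms d (d + 1)) (Ls (d + 1)) _ _ hab
  have m2 := mean_box (Tup (d + 1) N) d
    (fun x => (∏ i, b (x i)) * (Complex.I * (Ls (d + 1) x : ℂ)))
    (((d + 1 : ℕ) : ℝ) * Real.log (2 * N)) (by positivity)
    (fun x hx => by
      rw [norm_mul, norm_mul, Complex.norm_I, one_mul, Complex.norm_real, Real.norm_eq_abs]
      have h1 := Ls_le (d + 1) N hN x hx
      rw [abs_of_nonneg h1.1]
      calc _ ≤ 1 * Ls (d + 1) x := mul_le_mul_of_nonneg_right (hB x) h1.1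
        _ ≤ _ := by rw [one_mul]; exact h1.2) (ms d (d + 1)) (Ls (d + 1)) _ _ hab
  have e : ∀ β : Fin d → ℝ, HH d (d + 1) N b T β =
      2 * (∫ s in (-(1 / 2))..(T + 1 / 2), ‖FF d (d + 1) N b β s‖ ^ 2) +
      ∫ s in (-(1 / 2))..(T + 1 / 2), ‖FD d (d + 1) N b β s‖ ^ 2 := by
    intro β
    unfold HH
    have c1 : Continuous fun s => 2 * ‖FF d (d + 1) N b β s‖ ^ 2 := by unfold FF; fun_prop
    have c2 : Continuous fun s => ‖FD d (d + 1) N b β s‖ ^ 2 := by unfold FD; fun_prop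
    rw [intervalIntegral.integral_add (c1.intervalIntegrable _ _) (c2.intervalIntegrable _ _),
      intervalIntegral.integral_const_mul]
  have h1 : ∀ m : Fin d → ℤ, Continuous fun p : (Fin d → ℝ) × ℝ => pha d p.1 m := fun m =>
    (pha_cont d m).comp continuous_fst
  have i1 : Integrable (fun β : Fin d → ℝ => ∫ s in (-(1 / 2))..(T + 1 / 2),
      ‖FF d (d + 1) N b β s‖ ^ 2) (nu d) := by
    have : Continuous (fun β : Fin d → ℝ => ∫ s in (-(1 / 2))..(T + 1 / 2),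
      ‖FF d (d + 1) N b β s‖ ^ 2) := by
      apply intervalIntegral.continuous_parametric_intervalIntegral_of_continuous'
      unfold FF Function.uncurry
      fun_prop
    exact this.integrableOn_Icc
  have i2 : Integrable (fun β : Fin d → ℝ => ∫ s in (-(1 / 2))..(T + 1 / 2),
      ‖FD d (d + 1) N b β s‖ ^ 2) (nu d) := by
    have : Continuous (fun β : Fin d → ℝ => ∫ s in (-(1 / 2))..(T + 1 / 2),
      ‖FD d (d + 1) N b β s‖ ^ 2) := by
      apply intervalIntegral.continuous_parametric_intervalIntegral_of_continuous'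
      unfold FD Function.uncurry
      fun_prop
    exact this.integrableOn_Icc
  simp only [e]
  rw [integral_add (i1.const_mul 2) i2, integral_const_mul]
  unfold SS
  unfold FF FD
  rw [one_pow, one_mul] at m1
  nlinarith [m1, m2]

end Pool.Agent.U485.PT
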