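import Mathlib
import Pool.Agent.W346.PV.Newt
import Pool.Agent.H510R2.Div

set_option autoImplicit false

/-!
# Pairs of `(d + 1)`-tuples with the same power sums of orders `1, …, d` and close products
-/

open Finset Polynomial

namespace Pool.Agent.U485.PT

/-- equal power sums of orders `1, …, d` -/
def SameP (d k : ℕ) (x y : Fin k → ℕ) : Prop :=
  ∀ j : Fin d, ∑ i, x i ^ (j.val + 1) = ∑ i, y i ^ (j.val + 1)

/-- the difference of the products -/
def dif (k : ℕ) (x y : Fin k → ℕ) : ℤ := (∏ i, (x i : ℤ)) - ∏ i, (y i : ℤ)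

theorem const_diff (d : ℕ) (x y : Fin (d + 1) → ℕ) (h : SameP d (d + 1) x y) (a : ℤ) :
    (∏ i, (a - x i)) - ∏ i, (a - y i) = (-1) ^ (d + 1) * dif (d + 1) x y := by
  have h1 := Pool.Agent.W346.PV.Newt.main (d + 1) d x y h
  have h2 : ((d + 1 - d : ℕ) : WithBot ℕ) = 1 := by
    rw [show d + 1 - d = 1 by omega]; rfl
  rw [h2] at h1
  set P : ℤ[X] := (∏ i, ((X : ℤ[X]) - C (x i : ℤ))) - ∏ i, ((X : ℤ[X]) - C (y i : ℤ)) with hP
  have h3 : P = C (P.coeff 0) := by
    apply eq_C_of_degree_le_zero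
    have h4 : P.degree < ((0 + 1 : ℕ) : WithBot ℕ) := by simpa using h1
    rw [degree_lt_iff_coeff_zero] at h4
    rw [degree_le_iff_coeff_zero]
    intro m hm
    refine h4 m ?_
    have : (0 : ℕ) < m := by exact_mod_cast hm
    omega
  have e1 : ∀ a : ℤ, P.eval a = (∏ i, (a - x i)) - ∏ i, (a - y i) := by
    intro a
    rw [hP, eval_sub, eval_prod, eval_prod]
    simp
  have e2 : P.eval a = P.eval 0 := by
    rw [h3]; simp
  rw [← e1, e2, e1]
  unfold dif
  simp only [zero_sub]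
  have hneg : ∀ z : Fin (d + 1) → ℕ, ∏ i, (-(z i : ℤ)) = (-1) ^ (d + 1) * ∏ i, (z i : ℤ) := by
    intro z
    rw [Finset.prod_neg]
    simp
  rw [hneg, hneg]
  ring

theorem dvd_one (d : ℕ) (x y : Fin (d + 1) → ℕ) (h : SameP d (d + 1) x y) (j i : Fin (d + 1)) :
    ((x j : ℤ) - y i) ∣ dif (d + 1) x y := by
  have h1 := const_diff d x y h (x j)
  have h2 : ∏ i, ((x j : ℤ) - x i) = 0 := Finset.prod_eq_zero (Finset.mem_univ j) (sub_self _)
  rw [h2, zero_sub] at h1
  have h3 : ((x j : ℤ) - y i) ∣ ∏ i, ((x j : ℤ) - y i) := Finset.dvd_prod_of_mem _ (Finset.mem_univ i)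
  have h4 : dif (d + 1) x y = (-1) ^ (d + 1) * (-(∏ i, ((x j : ℤ) - y i))) := by
    rw [h1, ← mul_assoc, ← mul_pow]
    simp
  rw [h4]
  exact Dvd.dvd.mul_left ((dvd_neg).2 h3) _

theorem dvd_two (d : ℕ) (x y : Fin (d + 1) → ℕ) (h : SameP d (d + 1) x y) (j i : Fin (d + 1)) :
    ((y j : ℤ) - x i) ∣ dif (d + 1) x y := by
  have h1 : SameP d (d + 1) y x := fun j => (h j).symm
  have h2 := dvd_one d y x h1 j i
  have h3 : dif (d + 1) x y = -dif (d + 1) y x := by unfold dif; ring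
  rw [h3]
  exact (dvd_neg).2 h2

theorem eq_roots (d : ℕ) (x y : Fin (d + 1) → ℕ) (h : SameP d (d + 1) x y)
    (h0 : dif (d + 1) x y = 0) (j : Fin (d + 1)) : ∃ i, y j = x i := by
  have h1 := const_diff d x y h (y j)
  have h2 : ∏ i, ((y j : ℤ) - y i) = 0 := Finset.prod_eq_zero (Finset.mem_univ j) (sub_self _)
  rw [h2, h0, mul_zero, sub_zero, Finset.prod_eq_zero_iff] at h1
  obtain ⟨i, -, hi⟩ := h1
  exact ⟨i, by exact_mod_cast (sub_eq_zero.1 hi)⟩

/-- the divisors of `h` in `ℤ` -/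
def dv (h : ℤ) : Finset ℤ :=
  h.natAbs.divisors.image (fun n : ℕ => (n : ℤ)) ∪ h.natAbs.divisors.image (fun n : ℕ => -(n : ℤ))

theorem mem_dv {h a : ℤ} (h0 : h ≠ 0) (ha : a ∣ h) : a ∈ dv h := by
  unfold dv
  rw [mem_union, mem_image, mem_image]
  have h1 : a.natAbs ∈ h.natAbs.divisors := by
    rw [Nat.mem_divisors]
    exact ⟨Int.natAbs_dvd_natAbs.2 ha, Int.natAbs_ne_zero.2 h0⟩
  rcases Int.natAbs_eq a with h2 | h2
  · exact Or.inl ⟨_, h1, h2.symm⟩
  · exact Or.inr ⟨_, h1, h2.symm⟩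

theorem card_dv (h : ℤ) : (dv h).card ≤ 2 * h.natAbs.divisors.card := by
  unfold dv
  refine (card_union_le _ _).trans ?_
  have h1 := card_image_le (s := h.natAbs.divisors) (f := fun n : ℕ => (n : ℤ))
  have h2 := card_image_le (s := h.natAbs.divisors) (f := fun n : ℕ => -(n : ℤ))
  omega

/-- the tuples -/
def Tup (k N : ℕ) : Finset (Fin k → ℕ) := Fintype.piFinset fun _ => Icc N (2 * N)

open scoped Classical in
/-- the pairs of tuples with equal power sums -/
noncomputable def Prs (d N : ℕ) : Finset ((Fin (d + 1) → ℕ) × (Fin (d + 1) → ℕ)) :=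
  (Tup (d + 1) N ×ˢ Tup (d + 1) N).filter fun p => SameP d (d + 1) p.1 p.2

theorem fiber_card (d N : ℕ) (a : ℕ) (h : ℤ) (h0 : h ≠ 0) :
    ((Prs d N).filter fun p => (p.1 0, dif (d + 1) p.1 p.2) = (a, h)).card ≤
      (2 * h.natAbs.divisors.card) ^ (2 * (d + 1)) := by
  classical
  set T : Finset ((Fin (d + 1) → ℤ) × (Fin (d + 1) → ℤ)) :=
    (Fintype.piFinset fun _ => dv h) ×ˢ (Fintype.piFinset fun _ => dv h) with hT
  have hc : T.card ≤ (2 * h.natAbs.divisors.card) ^ (2 * (d + 1)) := by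
    rw [hT, card_product, Fintype.card_piFinset]
    simp only [prod_const, card_univ, Fintype.card_fin]
    rw [← pow_add, two_mul (d + 1)]
    exact Nat.pow_le_pow_left (card_dv h) _
  refine le_trans ?_ hc
  refine card_le_card_of_injOn (fun p => (fun i => (a : ℤ) - p.2 i, fun i => (p.2 0 : ℤ) - p.1 i)) ?_ ?_
  · intro p hp
    rw [Finset.mem_coe, mem_filter] at hp
    obtain ⟨hp, hp2⟩ := hp
    unfold Prs at hp
    rw [mem_filter] at hp
    rw [Prod.mk.injEq] at hp2
    rw [Finset.mem_coe, hT, mem_product, Fintype.mem_piFinset, Fintype.mem_piFinset]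
    refine ⟨fun i => ?_, fun i => ?_⟩
    · apply mem_dv h0
      rw [← hp2.2, ← hp2.1]
      exact dvd_one d p.1 p.2 hp.2 0 i
    · apply mem_dv h0
      rw [← hp2.2]
      exact dvd_two d p.1 p.2 hp.2 0 i
  · intro p hp q hq hpq
    simp only [Prod.mk.injEq] at hpq
    have h1 : p.2 = q.2 := by
      funext i
      have := congrFun hpq.1 i
      omega
    have h2 : p.1 = q.1 := by
      funext i
      have := congrFun hpq.2 i
      rw [h1] at this
      omega
    exact Prod.ext h2 h1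

theorem diag_card (d N : ℕ) :
    ((Prs d N).filter fun p => dif (d + 1) p.1 p.2 = 0).card ≤
      (N + 1) ^ (d + 1) * (d + 1) ^ (d + 1) := by
  classical
  have h1 : ((Prs d N).filter fun p => dif (d + 1) p.1 p.2 = 0) ⊆
      (Tup (d + 1) N).biUnion fun x => (Fintype.piFinset fun _ : Fin (d + 1) => univ.image x).image
        fun y => (x, y) := by
    intro p hp
    rw [mem_filter] at hp
    obtain ⟨hp, hp2⟩ := hp
    unfold Prs at hp
    rw [mem_filter, mem_product] at hp
    rw [mem_biUnion]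
    refine ⟨p.1, hp.1.1, ?_⟩
    rw [mem_image]
    refine ⟨p.2, ?_, rfl⟩
    rw [Fintype.mem_piFinset]
    intro j
    obtain ⟨i, hi⟩ := eq_roots d p.1 p.2 hp.2 hp2 j
    rw [mem_image]
    exact ⟨i, mem_univ _, hi.symm⟩
  refine (card_le_card h1).trans ?_
  refine (card_biUnion_le_card_mul _ _ ((d + 1) ^ (d + 1)) ?_).trans ?_
  · intro x _
    refine card_image_le.trans ?_
    rw [Fintype.card_piFinset]
    simp only [prod_const, card_univ, Fintype.card_fin]
    refine Nat.pow_le_pow_left ?_ _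
    refine card_image_le.trans ?_
    simp
  · refine Nat.mul_le_mul_right _ ?_
    unfold Tup
    rw [Fintype.card_piFinset]
    simp only [prod_const, card_univ, Fintype.card_fin]
    refine Nat.pow_le_pow_left ?_ _
    rw [Nat.card_Icc]
    omega

/-- weighted count -/
theorem weighted (d N : ℕ) (w : ℤ → ℝ) (hw : ∀ h, 0 ≤ w h) :
    ∑ p ∈ Prs d N, w (dif (d + 1) p.1 p.2) ≤
      ((N + 1) ^ (d + 1) * (d + 1) ^ (d + 1) : ℕ) * w 0 +
      ∑ h ∈ (Icc (-((2 * N : ℤ) ^ (d + 1))) ((2 * N : ℤ) ^ (d + 1))).erase 0,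
        (N + 1) * (2 * (h.natAbs.divisors.card : ℝ)) ^ (2 * (d + 1)) * w h := by
  classical
  set M : ℤ := (2 * N : ℤ) ^ (d + 1) with hM
  rw [← sum_filter_add_sum_filter_not (Prs d N) (fun p => dif (d + 1) p.1 p.2 = 0)]
  refine add_le_add ?_ ?_
  · have h1 : ∑ p ∈ (Prs d N).filter (fun p => dif (d + 1) p.1 p.2 = 0), w (dif (d + 1) p.1 p.2) =
        ∑ p ∈ (Prs d N).filter (fun p => dif (d + 1) p.1 p.2 = 0), w 0 := by
      refine sum_congr rfl fun p hp => ?_
      rw [mem_filter] at hp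
      rw [hp.2]
    rw [h1, sum_const, nsmul_eq_mul]
    refine mul_le_mul_of_nonneg_right ?_ (hw 0)
    exact_mod_cast diag_card d N
  · have hmaps : ∀ p ∈ (Prs d N).filter (fun p => ¬ dif (d + 1) p.1 p.2 = 0),
        (p.1 0, dif (d + 1) p.1 p.2) ∈ (Icc N (2 * N)) ×ˢ ((Icc (-M) M).erase 0) := by
      intro p hp
      rw [mem_filter] at hp
      obtain ⟨hp, hp2⟩ := hp
      unfold Prs at hp
      rw [mem_filter, mem_product] at hp
      unfold Tup at hp
      rw [Fintype.mem_piFinset, Fintype.mem_piFinset] at hp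
      rw [mem_product, mem_erase]
      refine ⟨hp.1.1 0, hp2, ?_⟩
      have hb : ∀ z : Fin (d + 1) → ℕ, (∀ i, z i ∈ Icc N (2 * N)) →
          (0 : ℤ) ≤ ∏ i, (z i : ℤ) ∧ ∏ i, (z i : ℤ) ≤ M := by
        intro z hz
        refine ⟨prod_nonneg fun i _ => by positivity, ?_⟩
        have : ∏ i, (z i : ℤ) ≤ ∏ _i : Fin (d + 1), (2 * N : ℤ) := by
          refine prod_le_prod (fun i _ => by positivity) fun i _ => ?_
          have := (mem_Icc.1 (hz i)).2
          exact_mod_cast this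
        refine this.trans ?_
        simp [hM]
      have b1 := hb p.1 hp.1.1
      have b2 := hb p.2 hp.1.2
      show dif (d + 1) p.1 p.2 ∈ Icc (-M) M
      rw [mem_Icc]
      unfold dif
      constructor <;> linarith [b1.1, b1.2, b2.1, b2.2]
    rw [← sum_fiberwise_of_maps_to hmaps (fun p => w (dif (d + 1) p.1 p.2)), sum_product]
    rw [sum_comm]
    refine sum_le_sum fun h hh => ?_
    rw [mem_erase] at hh
    have h1 : ∀ a ∈ Icc N (2 * N), ∑ p ∈ ((Prs d N).filter
        (fun p => ¬ dif (d + 1) p.1 p.2 = 0)).filter (fun p => (p.1 0, dif (d + 1) p.1 p.2) = (a, h)),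
          w (dif (d + 1) p.1 p.2) ≤ (2 * (h.natAbs.divisors.card : ℝ)) ^ (2 * (d + 1)) * w h := by
      intro a _
      have h2 : ∑ p ∈ ((Prs d N).filter
        (fun p => ¬ dif (d + 1) p.1 p.2 = 0)).filter (fun p => (p.1 0, dif (d + 1) p.1 p.2) = (a, h)),
          w (dif (d + 1) p.1 p.2) = ∑ p ∈ ((Prs d N).filter
        (fun p => ¬ dif (d + 1) p.1 p.2 = 0)).filter (fun p => (p.1 0, dif (d + 1) p.1 p.2) = (a, h)),
          w h := by
        refine sum_congr rfl fun p hp => ?_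
        rw [mem_filter, Prod.mk.injEq] at hp
        rw [hp.2.2]
      rw [h2, sum_const, nsmul_eq_mul]
      refine mul_le_mul_of_nonneg_right ?_ (hw h)
      have h3 : (((Prs d N).filter
        (fun p => ¬ dif (d + 1) p.1 p.2 = 0)).filter
          (fun p => (p.1 0, dif (d + 1) p.1 p.2) = (a, h))).card ≤
            (2 * h.natAbs.divisors.card) ^ (2 * (d + 1)) := by
        refine (card_le_card ?_).trans (fiber_card d N a h hh.1)
        intro p hp
        rw [mem_filter, mem_filter] at hp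
        rw [mem_filter]
        exact ⟨hp.1.1, hp.2⟩
      exact_mod_cast h3
    refine (sum_le_sum h1).trans ?_
    rw [sum_const, nsmul_eq_mul, Nat.card_Icc]
    have : ((2 * N + 1 - N : ℕ) : ℝ) = N + 1 := by
      rw [show 2 * N + 1 - N = N + 1 by omega]; push_cast; ring
    rw [this]
    exact le_of_eq (by ring)

end Pool.Agent.U485.PT
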