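import Pool.Agent.U485.PT.Count
import Pool.Agent.U623.TW.Fin

set_option autoImplicit false

/-!
# Mean squares over the unit box of the twist parameters
-/

open Finset Complex MeasureTheory intervalIntegral

namespace Pool.Agent.U485.PT

/-- Lebesgue measure on the unit box -/
noncomputable def nu (d : ℕ) : Measure (Fin d → ℝ) := volume.restrict (Set.Icc 0 1)

theorem nu_pi (d : ℕ) : nu d = Measure.pi (fun _ : Fin d => (volume : Measure ℝ).restrict (Set.Icc 0 1)) := by
  unfold nu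
  rw [← Measure.restrict_pi_pi, ← volume_pi]
  congr 1
  ext x
  simp [Set.mem_Icc, Pi.le_def]

instance (d : ℕ) : IsFiniteMeasure (nu d) := by
  rw [nu_pi]
  have : ∀ _ : Fin d, IsFiniteMeasure ((volume : Measure ℝ).restrict (Set.Icc 0 1)) := fun _ =>
    ⟨by simp⟩
  infer_instance

theorem int_one (m : ℤ) : ∫ β in Set.Icc (0 : ℝ) 1, exp (I * ((2 * Real.pi * (β * m) : ℝ) : ℂ)) =
    if m = 0 then 1 else 0 := by
  rw [MeasureTheory.integral_Icc_eq_integral_Ioc, ← intervalIntegral.integral_of_le zero_le_one]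
  split_ifs with h
  · subst h
    simp
  · have hS : (m : ℂ) ≠ 0 := by exact_mod_cast h
    have hc : (2 * Real.pi * m * I : ℂ) ≠ 0 := by
      have : (Real.pi : ℂ) ≠ 0 := by exact_mod_cast Real.pi_ne_zero
      simp [this, hS]
    have e : ∀ β : ℝ, exp (I * ((2 * Real.pi * (β * m) : ℝ) : ℂ)) =
        exp ((2 * Real.pi * m * I : ℂ) * β) := by
      intro β; congr 1; push_cast; ring
    simp only [e]
    rw [integral_exp_mul_complex hc]
    have h1 : exp ((2 * Real.pi * m * I : ℂ) * ((1 : ℝ) : ℂ)) = 1 := by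
      rw [Complex.exp_eq_one_iff]
      exact ⟨m, by push_cast; ring⟩
    rw [h1]
    simp

/-- the phase -/
noncomputable def pha (d : ℕ) (β : Fin d → ℝ) (m : Fin d → ℤ) : ℝ := 2 * Real.pi * ∑ j, β j * m j

theorem int_box (d : ℕ) (m : Fin d → ℤ) :
    ∫ β, exp (I * ((pha d β m : ℝ) : ℂ)) ∂(nu d) = if m = 0 then 1 else 0 := by
  have e : ∀ β : Fin d → ℝ, exp (I * ((pha d β m : ℝ) : ℂ)) =
      ∏ j, exp (I * ((2 * Real.pi * (β j * m j) : ℝ) : ℂ)) := by
    intro β
    rw [← Complex.exp_sum]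
    congr 1
    unfold pha
    rw [mul_sum]
    push_cast
    rw [mul_sum]
  simp only [e]
  rw [nu_pi, MeasureTheory.integral_fintype_prod_eq_prod
    (f := fun j (β : ℝ) => exp (I * ((2 * Real.pi * (β * m j) : ℝ) : ℂ)))]
  simp only [int_one]
  split_ifs with h
  · subst h; simp
  · obtain ⟨j, hj⟩ := Function.ne_iff.1 h
    exact prod_eq_zero (mem_univ j) (if_neg hj)

/-- the integral over `t` -/
noncomputable def J (a b θ : ℝ) : ℂ := ∫ t in a..b, exp (I * ((t * θ : ℝ) : ℂ))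

theorem J_triv (a b θ : ℝ) (hab : a ≤ b) : ‖J a b θ‖ ≤ b - a := by
  unfold J
  have := intervalIntegral.norm_integral_le_of_norm_le_const (a := a) (b := b) (C := 1)
    (f := fun t : ℝ => exp (I * ((t * θ : ℝ) : ℂ))) (fun t _ => by
      rw [mul_comm, Complex.norm_exp_ofReal_mul_I])
  rw [one_mul, abs_of_nonneg (by linarith)] at this
  exact this

theorem J_bound (a b θ : ℝ) (h : θ ≠ 0) : ‖J a b θ‖ ≤ 2 / |θ| := by
  unfold J
  have hc : (θ * I : ℂ) ≠ 0 := by
    have : (θ : ℂ) ≠ 0 := by exact_mod_cast h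
    simp [this]
  have e : ∀ t : ℝ, exp (I * ((t * θ : ℝ) : ℂ)) = exp ((θ * I : ℂ) * t) := by
    intro t; congr 1; push_cast; ring
  simp only [e]
  rw [integral_exp_mul_complex hc, norm_div]
  have n1 : ∀ x : ℝ, ‖exp ((θ * I : ℂ) * x)‖ = 1 := by
    intro x
    have : (θ * I : ℂ) * x = ((θ * x : ℝ) : ℂ) * I := by push_cast; ring
    rw [this, Complex.norm_exp_ofReal_mul_I]
  have n2 : ‖(θ * I : ℂ)‖ = |θ| := by
    rw [norm_mul, Complex.norm_I, mul_one, Complex.norm_real, Real.norm_eq_abs]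
  rw [n2]
  refine div_le_div_of_nonneg_right ?_ (abs_nonneg _)
  refine (norm_sub_le _ _).trans ?_
  rw [n1, n1]; norm_num

theorem pha_sub (d : ℕ) (β : Fin d → ℝ) (m n : Fin d → ℤ) :
    pha d β m - pha d β n = pha d β (m - n) := by
  unfold pha
  rw [← mul_sub, ← sum_sub_distrib]
  congr 1
  refine sum_congr rfl fun j _ => ?_
  simp only [Pi.sub_apply]
  push_cast; ring

theorem pha_cont (d : ℕ) (m : Fin d → ℤ) : Continuous fun β : Fin d → ℝ => pha d β m := by
  unfold pha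
  fun_prop

theorem exp_int (d : ℕ) (m : Fin d → ℤ) :
    Integrable (fun β : Fin d → ℝ => exp (I * ((pha d β m : ℝ) : ℂ))) (nu d) := by
  have h : Continuous fun β : Fin d → ℝ => exp (I * ((pha d β m : ℝ) : ℂ)) := by
    have := pha_cont d m
    fun_prop
  exact h.integrableOn_Icc

/-- mean square over the box and an interval -/
theorem mean_box {ι : Type*} (P : Finset ι) (d : ℕ) (g : ι → ℂ) (Λ : ℝ) (hΛ : 0 ≤ Λ)
    (hg : ∀ p ∈ P, ‖g p‖ ≤ Λ) (m : ι → Fin d → ℤ) (L : ι → ℝ) (a b : ℝ) (hab : a ≤ b) :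
    ∫ β, (∫ t in a..b, ‖∑ p ∈ P, g p * exp (I * ((pha d β (m p) + t * L p : ℝ) : ℂ))‖ ^ 2) ∂(nu d) ≤
      Λ ^ 2 * ∑ p ∈ P, ∑ q ∈ P, if m p = m q then ‖J a b (L p - L q)‖ else 0 := by
  have e0 : ∀ (β : Fin d → ℝ) (t : ℝ),
      ((‖∑ p ∈ P, g p * exp (I * ((pha d β (m p) + t * L p : ℝ) : ℂ))‖ ^ 2 : ℝ) : ℂ) =
      ∑ p ∈ P, ∑ q ∈ P, (g p * (starRingEnd ℂ) (g q) * exp (I * ((pha d β (m p - m q) : ℝ) : ℂ))) *
        exp (I * ((t * (L p - L q) : ℝ) : ℂ)) := by
    intro β t
    rw [Pool.Agent.U623.TW.sq_expand]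
    refine sum_congr rfl fun p _ => sum_congr rfl fun q _ => ?_
    have : exp (I * (((pha d β (m p) + t * L p) - (pha d β (m q) + t * L q) : ℝ) : ℂ)) =
        exp (I * ((pha d β (m p - m q) : ℝ) : ℂ)) * exp (I * ((t * (L p - L q) : ℝ) : ℂ)) := by
      rw [← Complex.exp_add, ← pha_sub]; congr 1; push_cast; ring
    rw [this]
    ring
  have e1 : ∀ β : Fin d → ℝ,
      (((∫ t in a..b, ‖∑ p ∈ P, g p * exp (I * ((pha d β (m p) + t * L p : ℝ) : ℂ))‖ ^ 2) : ℝ) : ℂ) =
      ∑ p ∈ P, ∑ q ∈ P, exp (I * ((pha d β (m p - m q) : ℝ) : ℂ)) *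
        (g p * (starRingEnd ℂ) (g q) * J a b (L p - L q)) := by
    intro β
    rw [← intervalIntegral.integral_ofReal]
    simp only [e0]
    rw [intervalIntegral.integral_finsetSum]
    · refine sum_congr rfl fun p _ => ?_
      rw [intervalIntegral.integral_finsetSum]
      · refine sum_congr rfl fun q _ => ?_
        rw [intervalIntegral.integral_const_mul]
        unfold J
        ring
      · intro q _
        exact (by fun_prop : Continuous _).intervalIntegrable _ _
    · intro p _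
      refine (Continuous.intervalIntegrable ?_ _ _)
      fun_prop
  have e2 : ((∫ β, (∫ t in a..b,
      ‖∑ p ∈ P, g p * exp (I * ((pha d β (m p) + t * L p : ℝ) : ℂ))‖ ^ 2) ∂(nu d) : ℝ) : ℂ) =
      ∑ p ∈ P, ∑ q ∈ P, (if m p = m q then (1 : ℂ) else 0) *
        (g p * (starRingEnd ℂ) (g q) * J a b (L p - L q)) := by
    rw [← integral_complex_ofReal]
    simp only [e1]
    rw [MeasureTheory.integral_finsetSum]
    · refine sum_congr rfl fun p _ => ?_
      rw [MeasureTheory.integral_finsetSum]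
      · refine sum_congr rfl fun q _ => ?_
        rw [MeasureTheory.integral_mul_const, int_box]
        simp only [sub_eq_zero]
      · intro q _
        exact (exp_int d _).mul_const _
    · intro p _
      exact integrable_finsetSum _ fun q _ => (exp_int d _).mul_const _
  have hnn : 0 ≤ ∫ β, (∫ t in a..b,
      ‖∑ p ∈ P, g p * exp (I * ((pha d β (m p) + t * L p : ℝ) : ℂ))‖ ^ 2) ∂(nu d) :=
    integral_nonneg fun β => intervalIntegral.integral_nonneg hab fun _ _ => by positivity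
  have e3 : (∫ β, (∫ t in a..b,
      ‖∑ p ∈ P, g p * exp (I * ((pha d β (m p) + t * L p : ℝ) : ℂ))‖ ^ 2) ∂(nu d)) =
      ‖((∫ β, (∫ t in a..b,
      ‖∑ p ∈ P, g p * exp (I * ((pha d β (m p) + t * L p : ℝ) : ℂ))‖ ^ 2) ∂(nu d) : ℝ) : ℂ)‖ := by
    rw [Complex.norm_real, Real.norm_eq_abs, abs_of_nonneg hnn]
  rw [e3, e2, mul_sum]
  refine (norm_sum_le _ _).trans (sum_le_sum fun p hp => ?_)
  rw [mul_sum]
  refine (norm_sum_le _ _).trans (sum_le_sum fun q hq => ?_)
  split_ifs with h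
  · rw [one_mul, norm_mul, norm_mul, RCLike.norm_conj]
    refine mul_le_mul_of_nonneg_right ?_ (norm_nonneg _)
    rw [sq]
    exact mul_le_mul (hg p hp) (hg q hq) (norm_nonneg _) hΛ
  · simp

/-- Gallagher's inequality -/
theorem gall_one (F F' : ℝ → ℂ) (hF : ∀ t, HasDerivAt F (F' t) t) (hc : Continuous F') (t : ℝ) :
    ‖F t‖ ^ 2 ≤ ∫ s in (t - 1 / 2)..(t + 1 / 2), (2 * ‖F s‖ ^ 2 + ‖F' s‖ ^ 2) := by
  have hFc : Continuous F := continuous_iff_continuousAt.2 fun s => (hF s).continuousAt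
  have hd : ∀ s, HasDerivAt (fun s => ‖F s‖ ^ 2) (2 * inner ℝ (F s) (F' s)) s := fun s => (hF s).norm_sq
  have hdc : Continuous fun s => 2 * inner ℝ (F s) (F' s) := by fun_prop
  have hab : t - 1 / 2 ≤ t + 1 / 2 := by linarith
  set G : ℝ → ℝ := fun s => ‖F s‖ ^ 2 + ‖F' s‖ ^ 2 with hG
  have hGc : Continuous G := by fun_prop
  have hdG : ∀ s, |2 * inner ℝ (F s) (F' s)| ≤ G s := by
    intro s
    rw [abs_mul, abs_of_pos (by norm_num : (0 : ℝ) < 2)]
    have := abs_real_inner_le_norm (F s) (F' s)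
    simp only [hG]
    nlinarith [sq_nonneg (‖F s‖ - ‖F' s‖)]
  set A : ℝ := ∫ s in (t - 1 / 2)..(t + 1 / 2), G s with hA
  have h1 : ∀ s ∈ Set.Icc (t - 1 / 2) (t + 1 / 2), ‖F t‖ ^ 2 ≤ ‖F s‖ ^ 2 + A := by
    intro s hs
    have h2 : ∫ u in s..t, 2 * inner ℝ (F u) (F' u) = ‖F t‖ ^ 2 - ‖F s‖ ^ 2 :=
      intervalIntegral.integral_eq_sub_of_hasDerivAt (fun u _ => hd u) (hdc.intervalIntegrable _ _)
    have h3 : |∫ u in s..t, 2 * inner ℝ (F u) (F' u)| ≤ A := by
      have h4 : |∫ u in s..t, 2 * inner ℝ (F u) (F' u)| ≤ |∫ u in s..t, G u| := by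
        have := intervalIntegral.norm_integral_le_abs_of_norm_le (a := s) (b := t)
          (f := fun u => 2 * inner ℝ (F u) (F' u)) (g := G) (μ := volume)
          (Filter.Eventually.of_forall fun u => by
            simpa [Real.norm_eq_abs] using hdG u) (hGc.intervalIntegrable _ _)
        simpa [Real.norm_eq_abs] using this
      refine h4.trans ?_
      have hG0 : ∀ u, 0 ≤ G u := fun u => by simp only [hG]; positivity
      rcases le_total s t with h | h
      · rw [abs_of_nonneg (intervalIntegral.integral_nonneg h fun u _ => hG0 u)]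
        exact intervalIntegral.integral_mono_interval hs.1 h (by linarith)
          (Filter.Eventually.of_forall fun u => hG0 u) (hGc.intervalIntegrable _ _)
      · rw [intervalIntegral.integral_symm, abs_neg,
          abs_of_nonneg (intervalIntegral.integral_nonneg h fun u _ => hG0 u)]
        exact intervalIntegral.integral_mono_interval (by linarith) h hs.2
          (Filter.Eventually.of_forall fun u => hG0 u) (hGc.intervalIntegrable _ _)
    have := (abs_le.1 h3).2
    linarith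
  have h5 : ∫ s in (t - 1 / 2)..(t + 1 / 2), ‖F t‖ ^ 2 ≤
      ∫ s in (t - 1 / 2)..(t + 1 / 2), (‖F s‖ ^ 2 + A) :=
    intervalIntegral.integral_mono_on hab intervalIntegrable_const
      ((by fun_prop : Continuous fun s => ‖F s‖ ^ 2 + A).intervalIntegrable _ _) h1
  rw [intervalIntegral.integral_const, intervalIntegral.integral_add
    ((by fun_prop : Continuous fun s => ‖F s‖ ^ 2).intervalIntegrable _ _)
    (intervalIntegrable_const), intervalIntegral.integral_const] at h5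
  have h6 : t + 1 / 2 - (t - 1 / 2) = (1 : ℝ) := by ring
  rw [h6, one_smul, one_smul, hA, ← intervalIntegral.integral_add
    ((by fun_prop : Continuous fun s => ‖F s‖ ^ 2).intervalIntegrable _ _)
    (hGc.intervalIntegrable _ _)] at h5
  refine h5.trans (le_of_eq ?_)
  refine intervalIntegral.integral_congr fun s _ => ?_
  simp only [hG]
  ring

theorem gall (F F' : ℝ → ℂ) (hF : ∀ t, HasDerivAt F (F' t) t) (hc : Continuous F') (T : ℝ)
    (hT : 0 ≤ T) (W : Finset ℝ) (hW : ∀ t ∈ W, 0 ≤ t ∧ t ≤ T) (hsep : ∀ t ∈ W, ∀ s ∈ W, t ≠ s → 1 ≤ |t - s|) :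
    ∑ t ∈ W, ‖F t‖ ^ 2 ≤ ∫ s in (-(1 / 2))..(T + 1 / 2), (2 * ‖F s‖ ^ 2 + ‖F' s‖ ^ 2) := by
  classical
  have hFc : Continuous F := continuous_iff_continuousAt.2 fun s => (hF s).continuousAt
  set H : ℝ → ℝ := fun s => 2 * ‖F s‖ ^ 2 + ‖F' s‖ ^ 2 with hH
  have hHc : Continuous H := by fun_prop
  have hH0 : ∀ s, 0 ≤ H s := fun s => by simp only [hH]; positivity
  have h1 : ∑ t ∈ W, ‖F t‖ ^ 2 ≤ ∑ t ∈ W, ∫ s in Set.Ioc (t - 1 / 2) (t + 1 / 2), H s := by
    refine sum_le_sum fun t _ => ?_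
    rw [← intervalIntegral.integral_of_le (by linarith)]
    exact gall_one F F' hF hc t
  refine h1.trans ?_
  rw [← MeasureTheory.integral_biUnion_finset W (s := fun t => Set.Ioc (t - 1 / 2) (t + 1 / 2))
    (fun t _ => measurableSet_Ioc)]
  · rw [intervalIntegral.integral_of_le (by linarith)]
    refine setIntegral_mono_set ?_ (Filter.Eventually.of_forall hH0) ?_
    · exact (hHc.integrableOn_Icc).mono_set Set.Ioc_subset_Icc_self
    · refine LE.le.eventuallyLE ?_
      intro s hs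
      rw [Set.mem_iUnion₂] at hs
      obtain ⟨t, ht, hs⟩ := hs
      have := hW t ht
      exact ⟨by linarith [hs.1, this.1], by linarith [hs.2, this.2]⟩
  · intro t ht s hs hts
    have h2 := hsep t ht s hs hts
    rw [Function.onFun, Set.disjoint_left]
    intro u hu1 hu2
    have h3 : |t - s| < 1 := by
      rw [abs_lt]
      constructor <;> linarith [hu1.1, hu1.2, hu2.1, hu2.2]
    linarith
  · intro t _
    exact (hHc.integrableOn_Icc).mono_set Set.Ioc_subset_Icc_self

end Pool.Agent.U485.PT
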